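import Pool.Agent.Helper5.Isg.LawA

/-!
# Joint law of the labels and the geometric variables (MP_600500_pr, packet LAW1)
-/

open MeasureTheory Filter Topology

noncomputable section

namespace Pool.Agent.Helper5.Isg

open Pool.Agent.Helper70.Isg

theorem Tc_eq {c : ℕ → Fin 3} {n : ℕ} (h : (lf 6 c n).1 = 0) : Tc 6 c = (lf 6 c n).2 := by
  classical
  have hex : ∃ n, (lf 6 c n).1 = 0 := ⟨n, h⟩
  unfold Tc
  rw [dif_pos hex]
  have h1 : (lf 6 c (Nat.find hex)).1 = 0 := Nat.find_spec hex
  have h2 : Nat.find hex ≤ n := Nat.find_min' hex h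
  have h3 := (lf_zero_add h1 (n - Nat.find hex)).2
  rw [Nat.add_sub_cancel' h2] at h3
  rw [h3]

theorem Tc_none {c : ℕ → Fin 3} (h : ∀ n, (lf 6 c n).1 ≠ 0) : Tc 6 c = 0 := by
  classical
  unfold Tc
  rw [dif_neg (by push Not; exact h)]

theorem measurable_lf (n : ℕ) : Measurable fun c : ℕ → Fin 3 => lf 6 c n := by
  induction n with
  | zero => exact measurable_const
  | succ n ih =>
    have h1 : Measurable fun c : ℕ → Fin 3 => (lf 6 c n, c n) :=
      ih.prodMk (measurable_pi_apply n)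
    have h2 : Measurable fun p : (ℕ × ℕ) × Fin 3 =>
        (if (if n % 6 = 0 ∧ 0 < n ∧ 0 < p.1.1 then p.1.1 + 1 else p.1.1) = 0 then (0, p.1.2)
      else if p.2 = 0 then ((if n % 6 = 0 ∧ 0 < n ∧ 0 < p.1.1 then p.1.1 + 1 else p.1.1) - 1,
        p.1.2)
      else ((if n % 6 = 0 ∧ 0 < n ∧ 0 < p.1.1 then p.1.1 + 1 else p.1.1),
        if (if n % 6 = 0 ∧ 0 < n ∧ 0 < p.1.1 then p.1.1 + 1 else p.1.1) = 1 then p.1.2 + 1
        else p.1.2) : ℕ × ℕ) := Measurable.of_discrete
    exact h2.comp h1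

theorem measurable_Tc : Measurable fun c : ℕ → Fin 3 => Tc 6 c := by
  refine measurable_to_countable' fun t => ?_
  have h : (fun c : ℕ → Fin 3 => Tc 6 c) ⁻¹' {t} =
      (⋃ n, {c | lf 6 c n = (0, t)}) ∪ (if t = 0 then ⋂ n, {c | (lf 6 c n).1 ≠ 0} else ∅) := by
    ext c
    simp only [Set.mem_preimage, Set.mem_singleton_iff, Set.mem_union, Set.mem_iUnion,
      Set.mem_ofPred_eq]
    by_cases hex : ∃ n, (lf 6 c n).1 = 0
    · obtain ⟨n, hn⟩ := hex
      constructor
      · intro ht
        left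
        exact ⟨n, Prod.ext hn (by rw [← Tc_eq hn]; exact ht)⟩
      · rintro (⟨m, hm⟩ | h2)
        · rw [Tc_eq (n := m) (by rw [hm]), hm]
        · split_ifs at h2 with h3
          · exact absurd hn (Set.mem_iInter.1 h2 n)
          · exact absurd h2 (by simp)
    · push Not at hex
      rw [Tc_none hex]
      constructor
      · intro ht
        right
        rw [if_pos ht.symm]
        exact Set.mem_iInter.2 hex
      · rintro (⟨m, hm⟩ | h2)
        · exact absurd (by rw [hm]) (hex m)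
        · split_ifs at h2 with h3
          · exact h3.symm
          · exact absurd h2 (by simp)
  rw [h]
  refine MeasurableSet.union (MeasurableSet.iUnion fun n => ?_) ?_
  · exact measurable_lf n (measurableSet_singleton _)
  · split_ifs
    · refine MeasurableSet.iInter fun n => ?_
      exact (measurable_fst.comp (measurable_lf n)) (measurableSet_singleton 0).compl
    · exact MeasurableSet.empty

variable {L : ℕ}

/-- the one dimensional stream -/
def str (c : ℤ → Lett L) (z : ℤ) : ℕ → Fin 3 := fun n =>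
  (c (z + ((n / 6 : ℕ) : ℤ))).2 ⟨n % 6, Nat.mod_lt _ (by norm_num)⟩

theorem measurable_str (z : ℤ) : Measurable fun c : ℤ → Lett L => str c z := by
  refine measurable_pi_lambda _ fun n => ?_
  exact (measurable_pi_apply _).comp (measurable_snd.comp (measurable_pi_apply _))

/-- the word read in a window -/
def wd (a : ℤ) (B : ℕ) (c : ℤ → Lett L) : Fin (6 * B) → Fin 3 := fun n => str c a n

/-- cylinder sets -/
def cyl (a : ℤ) (F : Finset ℤ) (l : ℤ → Fin L) {N : ℕ} (x : Fin N → Fin 3) (z : ℤ) :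
    Set (Lett L) :=
  (if z ∈ F then {l z} else Set.univ) ×ˢ
    {fun j : Fin 6 => ext x (6 * (z - a).toNat + j)}

theorem prob_uni : IsProbabilityMeasure
    (((3 ^ 6 : ENNReal)⁻¹) • (Measure.count : Measure (Fin 6 → Fin 3))) := by
  constructor
  rw [Measure.smul_apply, Measure.count_univ, smul_eq_mul]
  have h : (ENat.card (Fin 6 → Fin 3) : ENNReal) = 3 ^ 6 := by
    simp
    norm_num
  rw [h]
  exact ENNReal.inv_mul_cancel (by norm_num) (by norm_num)

theorem uni_single (w : Fin 6 → Fin 3) :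
    (((3 ^ 6 : ENNReal)⁻¹) • (Measure.count : Measure (Fin 6 → Fin 3))) {w} =
      (3 ^ 6 : ENNReal)⁻¹ := by
  rw [Measure.smul_apply, Measure.count_singleton, smul_eq_mul, mul_one]

theorem unifL_single (l : Fin L) : unifL L {l} = (L : ENNReal)⁻¹ := by
  unfold unifL
  rw [Measure.smul_apply, Measure.count_singleton, smul_eq_mul, mul_one]

theorem pL_cyl [IsProbabilityMeasure (unifL L)] (a : ℤ) (F : Finset ℤ) (l : ℤ → Fin L) {N : ℕ}
    (x : Fin N → Fin 3) (z : ℤ) :
    pL L (cyl a F l x z) = (if z ∈ F then (L : ENNReal)⁻¹ else 1) * (3 ^ 6 : ENNReal)⁻¹ := by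
  have := prob_uni
  unfold pL cyl
  rw [Measure.prod_prod, uni_single]
  split_ifs
  · rw [unifL_single]
  · rw [measure_univ]

theorem prob_pL [IsProbabilityMeasure (unifL L)] : IsProbabilityMeasure (pL L) := by
  have := prob_uni
  unfold pL
  infer_instance

theorem meas_cyl (a : ℤ) (F : Finset ℤ) (l : ℤ → Fin L) {N : ℕ}
    (x : Fin N → Fin 3) (z : ℤ) : MeasurableSet (cyl a F l x z) := by
  unfold cyl
  refine MeasurableSet.prod ?_ (measurableSet_singleton _)
  split_ifs
  · exact measurableSet_singleton _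
  · exact MeasurableSet.univ

theorem word_bound [IsProbabilityMeasure (unifL L)] (a : ℤ) (B : ℕ) (F : Finset ℤ)
    (hF : F ⊆ Finset.Ico a (a + B)) (l : ℤ → Fin L) (G : Finset (Fin (6 * B) → Fin 3)) :
    (Measure.infinitePi fun _ : ℤ => pL L)
      {c | (∀ z ∈ F, (c z).1 = l z) ∧ wd a B c ∈ G} ≤
      ENNReal.ofReal (G.card * ((1 / L) ^ F.card * (1 / 3) ^ (6 * B))) := by
  have := prob_pL (L := L)
  have hsub : {c : ℤ → Lett L | (∀ z ∈ F, (c z).1 = l z) ∧ wd a B c ∈ G} ⊆
      ⋃ x ∈ G, Set.pi (Finset.Ico a (a + B) : Finset ℤ) (cyl a F l x) := by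
    rintro c ⟨hl, hG⟩
    refine Set.mem_biUnion hG ?_
    intro z hz
    have hz' := Finset.mem_Ico.1 (Finset.mem_coe.1 hz)
    unfold cyl
    refine Set.mem_prod.2 ⟨?_, ?_⟩
    · split_ifs with h
      · exact hl z h
      · exact Set.mem_univ _
    · rw [Set.mem_singleton_iff]
      funext j
      have hb : 6 * (z - a).toNat + (j : ℕ) < 6 * B := by
        have := j.2
        omega
      unfold ext
      rw [dif_pos hb]
      simp only [wd, str]
      have h1 : a + (((6 * (z - a).toNat + (j : ℕ)) / 6 : ℕ) : ℤ) = z := by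
        have := j.2
        omega
      rw [h1]
      refine congrArg (c z).2 (Fin.ext ?_)
      have := j.2
      show (j : ℕ) = (6 * (z - a).toNat + (j : ℕ)) % 6
      omega
  refine (measure_mono hsub).trans ?_
  refine (measure_biUnion_finset_le _ _).trans ?_
  have hval : ∀ x ∈ G, (Measure.infinitePi fun _ : ℤ => pL L)
      (Set.pi (Finset.Ico a (a + B) : Finset ℤ) (cyl a F l x)) =
      ENNReal.ofReal ((1 / L) ^ F.card * (1 / 3) ^ (6 * B)) := by
    intro x _
    rw [Measure.infinitePi_pi _ fun z _ => meas_cyl a F l x z]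
    rw [Finset.prod_congr rfl fun z _ => pL_cyl a F l x z, Finset.prod_mul_distrib,
      Finset.prod_ite_mem, Finset.inter_eq_right.2 hF, Finset.prod_const, Finset.prod_const]
    have hc : (Finset.Ico a (a + B)).card = B := by simp
    have hL : (0 : ℝ) < L := by
      have : 0 < L := (l 0).pos
      exact_mod_cast this
    rw [hc, ENNReal.ofReal_mul (by positivity), ENNReal.ofReal_pow (by positivity),
      ENNReal.ofReal_pow (by positivity), one_div, one_div, ENNReal.ofReal_inv_of_pos hL,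
      ENNReal.ofReal_inv_of_pos (by norm_num), ENNReal.ofReal_natCast]
    congr 1
    rw [pow_mul, ENNReal.inv_pow, ENNReal.ofReal_ofNat]
  rw [Finset.sum_congr rfl hval, Finset.sum_const, nsmul_eq_mul,
    ENNReal.ofReal_mul (p := (G.card : ℝ)) (by positivity), ENNReal.ofReal_natCast]

theorem unsat_bound [IsProbabilityMeasure (unifL L)] (hR : S_RCNT) (hL : 0 < L) (z : ℤ) (n : ℕ) :
    (Measure.infinitePi fun _ : ℤ => pL L) {c | (lf 6 (str c z) (6 * n)).1 ≠ 0} ≤
      ENNReal.ofReal ((7 / 10) ^ n) := by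
  have h := word_bound (L := L) z n ∅ (by simp) (fun _ => ⟨0, hL⟩)
    (Finset.univ.filter fun x : Fin (6 * n) → Fin 3 => (lf 6 (ext x) (6 * n)).1 ≠ 0)
  refine le_trans (measure_mono ?_) (h.trans ?_)
  · intro c hc
    refine ⟨by simp, ?_⟩
    refine Finset.mem_filter.2 ⟨Finset.mem_univ _, ?_⟩
    rw [lf_congr (c' := str c z)]
    · exact hc
    · intro m hm
      unfold ext
      rw [dif_pos hm]
      rfl
  · apply ENNReal.ofReal_le_ofReal
    have h1 := hR n
    have h2 : ((Finset.univ.filter fun x : Fin (6 * n) → Fin 3 =>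
        (lf 6 (ext x) (6 * n)).1 ≠ 0).card : ℝ) ≤ (7 / 10) ^ n * 3 ^ (6 * n) := h1
    have h3 : (0 : ℝ) < (1 / 3) ^ (6 * n) := by positivity
    calc _ ≤ ((7 / 10) ^ n * 3 ^ (6 * n)) *
        ((1 / L : ℝ) ^ (∅ : Finset ℤ).card * (1 / 3) ^ (6 * n)) := by
          apply mul_le_mul_of_nonneg_right h2
          simp
      _ = (7 / 10) ^ n * (3 * (1 / 3)) ^ (6 * n) := by
          rw [Finset.card_empty, pow_zero, one_mul, mul_pow, mul_assoc]
      _ = (7 / 10) ^ n := by norm_num
      _ ≤ _ := le_rfl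

theorem sat_bound [IsProbabilityMeasure (unifL L)] (hW : S_WORD) (a : ℤ) (B : ℕ)
    (F : Finset ℤ) (hF : F ⊆ Finset.Ico a (a + B)) (l : ℤ → Fin L) (t : ℤ → ℕ) :
    (Measure.infinitePi fun _ : ℤ => pL L)
      {c | ∀ z ∈ F, ((c z).1 = l z ∧ Tc 6 (str c z) = t z) ∧
        (lf 6 (str c z) (6 * (a + B - z).toNat)).1 = 0} ≤
      ∏ z ∈ F, ENNReal.ofReal (lam (t z) / L) := by
  classical
  have hL : (0 : ℝ) < L := by
    have : 0 < L := (l 0).pos
    exact_mod_cast this
  have hlam : ∀ k, 0 ≤ lam k := fun k => by unfold lam; positivity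
  set F' : Finset (Fin B) := Finset.univ.filter fun i : Fin B => a + ((i : ℕ) : ℤ) ∈ F with hF'
  set t' : Fin B → ℕ := fun i => t (a + ((i : ℕ) : ℤ)) with ht'
  have h := word_bound (L := L) a B F hF l (GG B F' t')
  refine le_trans (measure_mono ?_) (h.trans ?_)
  · intro c hc
    refine ⟨fun z hz => (hc z hz).1.1, ?_⟩
    refine Finset.mem_filter.2 ⟨Finset.mem_univ _, ?_⟩
    intro i hi
    have hz : a + ((i : ℕ) : ℤ) ∈ F := (Finset.mem_filter.1 hi).2
    obtain ⟨⟨_, hT⟩, hs⟩ := hc _ hz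
    have hi2 := i.2
    have h1 : (a + (B : ℤ) - (a + ((i : ℕ) : ℤ))).toNat = B - i := by omega
    rw [h1] at hs
    have h2 : lf 6 (sh (ext (wd a B c)) i) (6 * B - 6 * i) =
        lf 6 (str c (a + ((i : ℕ) : ℤ))) (6 * (B - i)) := by
      have h3 : 6 * B - 6 * (i : ℕ) = 6 * (B - i) := by omega
      rw [h3]
      apply lf_congr
      intro m hm
      have h4 : 6 * (i : ℕ) + m < 6 * B := by omega
      unfold sh ext
      rw [dif_pos h4]
      simp only [wd, str]
      have h5 : a + (((6 * (i : ℕ) + m) / 6 : ℕ) : ℤ) = a + ((i : ℕ) : ℤ) + ((m / 6 : ℕ) : ℤ) := by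
        omega
      rw [h5]
      refine congrArg (c (a + ((i : ℕ) : ℤ) + ((m / 6 : ℕ) : ℤ))).2 (Fin.ext ?_)
      show (6 * (i : ℕ) + m) % 6 = m % 6
      omega
    refine ⟨?_, ?_⟩
    · rw [h2]; exact hs
    · unfold cnt
      rw [h2, ← Tc_eq hs, hT]
  · have h1 := card_GG hW B F' t'
    rw [← ENNReal.ofReal_prod_of_nonneg fun z _ => div_nonneg (hlam _) hL.le]
    apply ENNReal.ofReal_le_ofReal
    have h2 : ∏ i ∈ F', lam (t' i) = ∏ z ∈ F, lam (t z) := by
      refine Finset.prod_bij (fun i _ => a + ((i : ℕ) : ℤ)) ?_ ?_ ?_ ?_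
      · intro i hi
        exact (Finset.mem_filter.1 hi).2
      · intro i _ j _ hij
        apply Fin.ext
        have : a + ((i : ℕ) : ℤ) = a + ((j : ℕ) : ℤ) := hij
        omega
      · intro z hz
        have hz' := Finset.mem_Ico.1 (hF hz)
        refine ⟨⟨(z - a).toNat, by omega⟩, ?_, ?_⟩
        · refine Finset.mem_filter.2 ⟨Finset.mem_univ _, ?_⟩
          have : a + (((z - a).toNat : ℕ) : ℤ) = z := by omega
          simp only [this]
          exact hz
        · simp only
          omega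
      · intro i _
        rfl
    rw [h2] at h1
    rw [Finset.prod_div_distrib, Finset.prod_const]
    calc _ ≤ (3 ^ (6 * B) * ∏ z ∈ F, lam (t z)) * ((1 / L) ^ F.card * (1 / 3) ^ (6 * B)) := by
          apply mul_le_mul_of_nonneg_right h1
          positivity
      _ = (3 * (1 / 3)) ^ (6 * B) * ((∏ z ∈ F, lam (t z)) * (1 / L) ^ F.card) := by
          rw [mul_pow]; ring
      _ = (∏ z ∈ F, lam (t z)) / L ^ F.card := by
          rw [one_div_pow, div_eq_mul_one_div (∏ z ∈ F, lam (t z))]; norm_num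
      _ ≤ _ := le_rfl

theorem window (F : Finset ℤ) : ∃ (a : ℤ) (M : ℕ), F ⊆ Finset.Ico a (a + M) := by
  refine ⟨-∑ z ∈ F, |z|, (2 * ∑ z ∈ F, |z| + 1).toNat, ?_⟩
  intro z hz
  have h1 : |z| ≤ ∑ z ∈ F, |z| := Finset.single_le_sum (f := fun z : ℤ => |z|)
    (fun _ _ => abs_nonneg _) hz
  have h2 := neg_abs_le z
  have h3 := le_abs_self z
  rw [Finset.mem_Ico]
  omega

theorem law_le [IsProbabilityMeasure (unifL L)] (hW : S_WORD) (hR : S_RCNT)
    (F : Finset ℤ) (l : ℤ → Fin L) (t : ℤ → ℕ) :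
    (Measure.infinitePi fun _ : ℤ => pL L)
      {c | ∀ z ∈ F, (c z).1 = l z ∧ Tc 6 (str c z) = t z} ≤
      ∏ z ∈ F, ENNReal.ofReal (lam (t z) / L) := by
  have hL : 0 < L := (l 0).pos
  obtain ⟨a, M, hM⟩ := window F
  have key : ∀ n : ℕ, (Measure.infinitePi fun _ : ℤ => pL L)
      {c | ∀ z ∈ F, (c z).1 = l z ∧ Tc 6 (str c z) = t z} ≤
      (∏ z ∈ F, ENNReal.ofReal (lam (t z) / L)) + F.card * ENNReal.ofReal ((7 / 10) ^ n) := by
    intro n
    have hF : F ⊆ Finset.Ico a (a + ((M + n : ℕ) : ℤ)) := by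
      refine hM.trans (Finset.Ico_subset_Ico le_rfl ?_)
      push_cast; omega
    have hsub : {c : ℤ → Lett L | ∀ z ∈ F, (c z).1 = l z ∧ Tc 6 (str c z) = t z} ⊆
        {c | ∀ z ∈ F, ((c z).1 = l z ∧ Tc 6 (str c z) = t z) ∧
        (lf 6 (str c z) (6 * (a + ((M + n : ℕ) : ℤ) - z).toNat)).1 = 0} ∪
        ⋃ z ∈ F, {c | (lf 6 (str c z) (6 * (a + ((M + n : ℕ) : ℤ) - z).toNat)).1 ≠ 0} := by
      intro c hc
      by_cases h : ∃ z ∈ F, (lf 6 (str c z) (6 * (a + ((M + n : ℕ) : ℤ) - z).toNat)).1 ≠ 0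
      · right
        obtain ⟨z, hz, h⟩ := h
        exact Set.mem_biUnion hz h
      · left
        push Not at h
        exact fun z hz => ⟨hc z hz, h z hz⟩
    refine (measure_mono hsub).trans ((measure_union_le _ _).trans ?_)
    refine add_le_add (sat_bound hW a (M + n) F hF l t) ?_
    refine (measure_biUnion_finset_le _ _).trans ?_
    rw [← nsmul_eq_mul, ← Finset.sum_const]
    refine Finset.sum_le_sum fun z hz => ?_
    refine (unsat_bound hR hL z _).trans ?_
    apply ENNReal.ofReal_le_ofReal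
    apply pow_le_pow_of_le_one (by norm_num) (by norm_num)
    have := Finset.mem_Ico.1 (hM hz)
    push_cast
    omega
  have hlim : Tendsto (fun n : ℕ => (∏ z ∈ F, ENNReal.ofReal (lam (t z) / L)) +
      F.card * ENNReal.ofReal ((7 / 10 : ℝ) ^ n)) atTop
      (𝓝 ((∏ z ∈ F, ENNReal.ofReal (lam (t z) / L)) + F.card * ENNReal.ofReal 0)) := by
    refine Tendsto.add tendsto_const_nhds ?_
    refine ENNReal.Tendsto.const_mul ?_ (Or.inr (by simp))
    exact ENNReal.tendsto_ofReal (tendsto_pow_atTop_nhds_zero_of_lt_one (by norm_num) (by norm_num))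
  have := ge_of_tendsto' hlim key
  simpa using this

theorem law1 (hW : S_WORD) (hR : S_RCNT) (hP : S_P2) : S_LAW1 := by
  intro L hL F l t
  obtain ⟨h1, h2, h3, -, -, -⟩ := hP 0 L hL
  have := h1
  have := h2
  have := prob_pL (L := L)
  have hlam : ∀ k, 0 ≤ lam k := fun k => by unfold lam; positivity
  have hL' : (0 : ℝ) < L := by exact_mod_cast hL
  set f : (ℤ → Lett L) → (F → Fin L × ℕ) := fun c z => ((c z).1, Tc 6 (str c z)) with hf
  have hfm : Measurable f := by
    refine measurable_pi_lambda _ fun z => ?_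
    exact (measurable_fst.comp (measurable_pi_apply _)).prodMk
      (measurable_Tc.comp (measurable_str _))
  have hq : ∀ (i : Fin L) (k : ℕ), ((unifL L).prod geo) {(i, k)} =
      ENNReal.ofReal (lam k / L) := by
    intro i k
    rw [← Set.singleton_prod_singleton, Measure.prod_prod, unifL_single, h3, div_eq_inv_mul,
      ENNReal.ofReal_mul (by positivity), ENNReal.ofReal_inv_of_pos hL', ENNReal.ofReal_natCast]
  have hnu : ∀ g : F → Fin L × ℕ, (Measure.pi fun _ : F => (unifL L).prod geo) {g} =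
      ∏ z : F, ENNReal.ofReal (lam (g z).2 / L) := by
    intro g
    rw [Measure.pi_singleton]
    exact Finset.prod_congr rfl fun z _ => hq (g z).1 (g z).2
  have hmap : ∀ g : F → Fin L × ℕ, ((Measure.infinitePi fun _ : ℤ => pL L).map f) {g} ≤
      (Measure.pi fun _ : F => (unifL L).prod geo) {g} := by
    intro g
    rw [Measure.map_apply hfm (measurableSet_singleton _), hnu]
    set l' : ℤ → Fin L := fun z => if h : z ∈ F then (g ⟨z, h⟩).1 else ⟨0, hL⟩ with hl'
    set t' : ℤ → ℕ := fun z => if h : z ∈ F then (g ⟨z, h⟩).2 else 0 with ht'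
    have h4 := law_le hW hR F l' t'
    have h5 : ∏ z ∈ F, ENNReal.ofReal (lam (t' z) / L) =
        ∏ z : F, ENNReal.ofReal (lam (g z).2 / L) := by
      rw [← Finset.prod_coe_sort F fun z => ENNReal.ofReal (lam (t' z) / L)]
      refine Finset.prod_congr rfl fun z _ => ?_
      simp only [ht', dif_pos z.2]
    rw [← h5]
    refine le_trans (measure_mono ?_) h4
    intro c hc
    have hc' : f c = g := hc
    intro z hz
    have h6 := congrFun hc' ⟨z, hz⟩
    simp only [hf] at h6
    simp only [hl', ht', dif_pos hz, ← h6]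
    exact ⟨trivial, trivial⟩
  have hle : (Measure.infinitePi fun _ : ℤ => pL L).map f ≤
      Measure.pi fun _ : F => (unifL L).prod geo := by
    refine Measure.le_intro fun s hs _ => ?_
    rw [← Measure.tsum_indicator_apply_singleton _ s hs,
      ← Measure.tsum_indicator_apply_singleton _ s hs]
    refine ENNReal.tsum_le_tsum fun g => ?_
    exact Set.indicator_le_indicator (hmap g)
  have : IsProbabilityMeasure ((Measure.infinitePi fun _ : ℤ => pL L).map f) :=
    Measure.isProbabilityMeasure_map hfm.aemeasurable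
  have heq := Measure.eq_of_le_of_isProbabilityMeasure hle
  have h7 : {c : ℤ → Lett L | ∀ z ∈ F, (c z).1 = l z ∧ Tc 6 (fun n => (c (z + ((n / 6 : ℕ) : ℤ))).2
        ⟨n % 6, Nat.mod_lt _ (by norm_num)⟩) = t z} = f ⁻¹' {(fun z : F => (l z, t z) : F → Fin L × ℕ)} := by
    ext c
    simp only [Set.mem_ofPred_eq, Set.mem_preimage, Set.mem_singleton_iff]
    constructor
    · intro h
      funext z
      exact Prod.ext (h z z.2).1 (h z z.2).2
    · intro h z hz
      have h8 := congrFun h ⟨z, hz⟩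
      exact ⟨congrArg Prod.fst h8, congrArg Prod.snd h8⟩
  rw [h7, ← Measure.map_apply hfm (measurableSet_singleton _), heq, hnu]
  rw [← Finset.prod_coe_sort F fun z => ENNReal.ofReal (lam (t z) / L)]

end Pool.Agent.Helper5.Isg
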