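import Pool.Agent.Helper70.Isg.Goals2

/-!
# The combinatorics of the last-in first-out queue (MP_600500_pr, packet LAW1)
-/

open MeasureTheory Filter Topology

noncomputable section

namespace Pool.Agent.Helper5.Isg

open Pool.Agent.Helper70.Isg

/-- height after the possible arrival -/
def hp (c : ℕ → Fin 3) (n : ℕ) : ℕ :=
  if n % 6 = 0 ∧ 0 < n ∧ 0 < (lf 6 c n).1 then (lf 6 c n).1 + 1 else (lf 6 c n).1

theorem lf_succ (c : ℕ → Fin 3) (n : ℕ) :
    lf 6 c (n + 1) = if hp c n = 0 then (0, (lf 6 c n).2)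
      else if c n = 0 then (hp c n - 1, (lf 6 c n).2)
      else (hp c n, if hp c n = 1 then (lf 6 c n).2 + 1 else (lf 6 c n).2) := rfl

theorem hp_eq_zero {c : ℕ → Fin 3} {n : ℕ} : hp c n = 0 ↔ (lf 6 c n).1 = 0 := by
  unfold hp
  split_ifs with h
  · constructor
    · intro h'
      exact h'.elim
    · intro h'
      omega
  · rfl

theorem lf1_succ (c : ℕ → Fin 3) (n : ℕ) :
    (lf 6 c (n + 1)).1 = if c n = 0 then hp c n - 1 else hp c n := by
  rw [lf_succ]; split_ifs <;> simp_all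

theorem lf2_succ (c : ℕ → Fin 3) (n : ℕ) :
    (lf 6 c (n + 1)).2 =
      if c n ≠ 0 ∧ hp c n = 1 then (lf 6 c n).2 + 1 else (lf 6 c n).2 := by
  rw [lf_succ]; split_ifs <;> simp_all

theorem lf2_mono (c : ℕ → Fin 3) : Monotone fun n => (lf 6 c n).2 := by
  refine monotone_nat_of_le_succ fun n => ?_
  simp only [lf2_succ]; split_ifs <;> omega

theorem lf2_le (c : ℕ → Fin 3) (n : ℕ) : (lf 6 c n).2 ≤ n := by
  induction n with
  | zero => simp [lf]
  | succ n ih => rw [lf2_succ]; split_ifs <;> omega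

theorem lf_zero_add {c : ℕ → Fin 3} {n : ℕ} (h : (lf 6 c n).1 = 0) (k : ℕ) :
    (lf 6 c (n + k)).1 = 0 ∧ (lf 6 c (n + k)).2 = (lf 6 c n).2 := by
  induction k with
  | zero => exact ⟨h, rfl⟩
  | succ k ih =>
    have h0 : hp c (n + k) = 0 := hp_eq_zero.2 ih.1
    rw [← add_assoc]
    refine ⟨?_, ?_⟩
    · rw [lf1_succ, h0]; simp
    · rw [lf2_succ, h0]; simpa using ih.2

theorem lf_congr {c c' : ℕ → Fin 3} {n : ℕ} (h : ∀ m < n, c m = c' m) :
    lf 6 c n = lf 6 c' n := by
  induction n with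
  | zero => rfl
  | succ n ih =>
    have ih := ih fun m hm => h m (by omega)
    have : hp c n = hp c' n := by simp only [hp, ih]
    rw [lf_succ, lf_succ, ih, this, h n (by omega)]

theorem hp_congr {c c' : ℕ → Fin 3} {n : ℕ} (h : ∀ m < n, c m = c' m) : hp c n = hp c' n := by
  simp only [hp, lf_congr h]

theorem serv (c : ℕ → Fin 3) (n : ℕ) :
    (∀ j < (lf 6 c n).2, ∃ m < n, hp c m = 1 ∧ (lf 6 c m).2 = j ∧ c m ≠ 0) ∧
    ((lf 6 c n).1 = 0 → ∃ m < n, hp c m = 1 ∧ (lf 6 c m).2 = (lf 6 c n).2 ∧ c m = 0) := by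
  induction n with
  | zero => simp [lf]
  | succ n ih =>
    obtain ⟨ih1, ih2⟩ := ih
    constructor
    · intro j hj
      rw [lf2_succ] at hj
      split_ifs at hj with h
      · by_cases hj' : j < (lf 6 c n).2
        · obtain ⟨m, hm, h3⟩ := ih1 j hj'
          exact ⟨m, by omega, h3⟩
        · exact ⟨n, by omega, h.2, by omega, h.1⟩
      · obtain ⟨m, hm, h3⟩ := ih1 j hj
        exact ⟨m, by omega, h3⟩
    · intro h0
      rw [lf1_succ] at h0
      by_cases hz : hp c n = 0
      · obtain ⟨m, hm, h1, h2, h3⟩ := ih2 (hp_eq_zero.1 hz)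
        refine ⟨m, by omega, h1, ?_, h3⟩
        rw [h2, lf2_succ, hz]; simp
      · by_cases hc : c n = 0
        · rw [if_pos hc] at h0
          refine ⟨n, by omega, by omega, ?_, hc⟩
          rw [lf2_succ]; simp [hc]
        · rw [if_neg hc] at h0
          exact absurd h0 hz

/-- the stream of the customer `i` -/
def sh (X : ℕ → Fin 3) (i : ℕ) : ℕ → Fin 3 := fun m => X (6 * i + m)

theorem inv (X : ℕ → Fin 3) {i k : ℕ} (hik : i < k) (n : ℕ) (hn : 6 * k ≤ n) :
    hp (sh X i) (n - 6 * i) = 0 ∨ hp (sh X k) (n - 6 * k) < hp (sh X i) (n - 6 * i) := by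
  induction n, hn using Nat.le_induction with
  | base =>
    have h1 : hp (sh X k) (6 * k - 6 * k) = 1 := by simp [hp, lf]
    rw [h1]
    have h2 : (6 * k - 6 * i) % 6 = 0 := by omega
    by_cases h : (lf 6 (sh X i) (6 * k - 6 * i)).1 = 0
    · left; exact hp_eq_zero.2 h
    · right
      unfold hp
      rw [if_pos ⟨h2, by omega, by omega⟩]
      omega
  | succ n hn ih =>
    have e1 : n + 1 - 6 * i = (n - 6 * i) + 1 := by omega
    have e2 : n + 1 - 6 * k = (n - 6 * k) + 1 := by omega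
    have e3 : (n - 6 * i + 1) % 6 = (n + 1) % 6 := by omega
    have e4 : (n - 6 * k + 1) % 6 = (n + 1) % 6 := by omega
    rw [e1, e2]
    have l1 := lf1_succ (sh X i) (n - 6 * i)
    have l2 := lf1_succ (sh X k) (n - 6 * k)
    have l3 : sh X i (n - 6 * i) = X n := by
      unfold sh; congr 1; omega
    have l4 : sh X k (n - 6 * k) = X n := by
      unfold sh; congr 1; omega
    rw [l3] at l1
    rw [l4] at l2
    have m1 : hp (sh X i) (n - 6 * i + 1) = if (n + 1) % 6 = 0 ∧ 0 < (lf 6 (sh X i) (n - 6 * i + 1)).1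
        then (lf 6 (sh X i) (n - 6 * i + 1)).1 + 1 else (lf 6 (sh X i) (n - 6 * i + 1)).1 := by
      unfold hp; rw [e3]; simp
    have m2 : hp (sh X k) (n - 6 * k + 1) = if (n + 1) % 6 = 0 ∧ 0 < (lf 6 (sh X k) (n - 6 * k + 1)).1
        then (lf 6 (sh X k) (n - 6 * k + 1)).1 + 1 else (lf 6 (sh X k) (n - 6 * k + 1)).1 := by
      unfold hp; rw [e4]; simp
    rw [m1, m2]
    split_ifs at l1 l2 ⊢ <;> omega

/-- the customer `i` is served by the letter `n` -/
def Srv (X : ℕ → Fin 3) (n i : ℕ) : Prop := 6 * i ≤ n ∧ hp (sh X i) (n - 6 * i) = 1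

/-- number of failures of the customer `i` before the letter `n` -/
def cnt (X : ℕ → Fin 3) (n i : ℕ) : ℕ := (lf 6 (sh X i) (n - 6 * i)).2

theorem cnt_le (X : ℕ → Fin 3) (n i : ℕ) : cnt X n i ≤ n :=
  (lf2_le _ _).trans (by omega)

theorem srv_unique {X : ℕ → Fin 3} {n i k : ℕ} (hi : Srv X n i) (hk : Srv X n k) : i = k := by
  by_contra hne
  rcases lt_or_gt_of_ne hne with h | h
  · have := inv X h n hk.1
    rw [hi.2, hk.2] at this
    omega
  · have := inv X h n hi.1
    rw [hi.2, hk.2] at this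
    omega

/-- after being served the label of the customer changes or he is satisfied -/
theorem srv_next {X : ℕ → Fin 3} {n n' i : ℕ} (hn : n < n') (h : Srv X n i) (h' : Srv X n' i) :
    cnt X n i < cnt X n' i := by
  obtain ⟨h1, h2⟩ := h
  obtain ⟨h1', h2'⟩ := h'
  have e1 : n' - 6 * i = (n - 6 * i + 1) + (n' - n - 1) := by omega
  have hX : sh X i (n - 6 * i) = X n := by
    unfold sh; congr 1; omega
  by_cases hc : X n = 0
  · have h0 : (lf 6 (sh X i) (n - 6 * i + 1)).1 = 0 := by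
      rw [lf1_succ, hX, if_pos hc, h2]
    have := (lf_zero_add h0 (n' - n - 1)).1
    rw [← e1] at this
    rw [hp_eq_zero.2 this] at h2'
    omega
  · have h3 : (lf 6 (sh X i) (n - 6 * i + 1)).2 = (lf 6 (sh X i) (n - 6 * i)).2 + 1 := by
      rw [lf2_succ, hX, if_pos ⟨hc, h2⟩]
    have h4 := lf2_mono (sh X i) (show n - 6 * i + 1 ≤ n' - 6 * i by omega)
    simp only at h4
    unfold cnt
    omega

/-- extension of a word by zeros -/
def ext {N : ℕ} (x : Fin N → Fin 3) : ℕ → Fin 3 := fun i => if h : i < N then x ⟨i, h⟩ else 0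

theorem srv_congr {X X' : ℕ → Fin 3} {n i : ℕ} (h : ∀ m < n, X m = X' m) :
    Srv X n i ↔ Srv X' n i := by
  unfold Srv
  refine and_congr_right fun h1 => ?_
  rw [hp_congr (c' := sh X' i)]
  intro m hm
  exact h _ (by omega)

theorem cnt_congr {X X' : ℕ → Fin 3} {n i : ℕ} (h : ∀ m < n, X m = X' m) :
    cnt X n i = cnt X' n i := by
  unfold cnt
  rw [lf_congr (c' := sh X' i)]
  intro m hm
  exact h _ (by omega)

open Classical in
/-- the labels -/
def lbl (B : ℕ) (n : Fin (6 * B)) (x : Fin (6 * B) → Fin 3) :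
    (Fin B × Fin (6 * B)) ⊕ Fin (6 * B) :=
  if h : ∃ i : Fin B, Srv (ext x) n i then
    Sum.inl (h.choose, ⟨cnt (ext x) n h.choose, lt_of_le_of_lt (cnt_le _ _ _) n.2⟩)
  else Sum.inr n

theorem lbl_inl {B : ℕ} {n : Fin (6 * B)} {x : Fin (6 * B) → Fin 3} {i : Fin B}
    (h : Srv (ext x) n i) :
    lbl B n x = Sum.inl (i, ⟨cnt (ext x) n i, lt_of_le_of_lt (cnt_le _ _ _) n.2⟩) := by
  have hex : ∃ i : Fin B, Srv (ext x) n i := ⟨i, h⟩
  have hc : hex.choose = i := Fin.ext (srv_unique hex.choose_spec h)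
  unfold lbl
  rw [dif_pos hex]
  simp only [hc]

theorem lbl_inr {B : ℕ} {n : Fin (6 * B)} {x : Fin (6 * B) → Fin 3}
    (h : ¬ ∃ i : Fin B, Srv (ext x) n i) : lbl B n x = Sum.inr n := by
  unfold lbl
  rw [dif_neg h]

theorem ext_agree {N : ℕ} {x x' : Fin N → Fin 3} {n : Fin N} (h : ∀ m < n, x m = x' m) :
    ∀ m < (n : ℕ), ext x m = ext x' m := by
  intro m hm
  unfold ext
  by_cases hN : m < N
  · rw [dif_pos hN, dif_pos hN]
    exact h _ (by simpa [Fin.lt_def] using hm)
  · rw [dif_neg hN, dif_neg hN]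

theorem lbl_pred (B : ℕ) (n : Fin (6 * B)) (x x' : Fin (6 * B) → Fin 3)
    (h : ∀ m < n, x m = x' m) : lbl B n x = lbl B n x' := by
  have ha := ext_agree h
  by_cases hex : ∃ i : Fin B, Srv (ext x) n i
  · obtain ⟨i, hi⟩ := hex
    have hi' : Srv (ext x') n i := (srv_congr ha).1 hi
    rw [lbl_inl hi, lbl_inl hi']
    simp only [cnt_congr ha]
  · have hex' : ¬ ∃ i : Fin B, Srv (ext x') n i := by
      rintro ⟨i, hi⟩
      exact hex ⟨i, (srv_congr ha).2 hi⟩
    rw [lbl_inr hex, lbl_inr hex']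

theorem lbl_inj (B : ℕ) (x : Fin (6 * B) → Fin 3) : Function.Injective fun n => lbl B n x := by
  have key : ∀ n n' : Fin (6 * B), n < n' → lbl B n x ≠ lbl B n' x := by
    intro n n' hlt heq
    by_cases hex : ∃ i : Fin B, Srv (ext x) n i
    · obtain ⟨i, hi⟩ := hex
      by_cases hex' : ∃ i : Fin B, Srv (ext x) n' i
      · obtain ⟨i', hi'⟩ := hex'
        rw [lbl_inl hi, lbl_inl hi'] at heq
        have h1 := Sum.inl.inj heq
        have h2 : i = i' := congrArg Prod.fst h1
        subst h2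
        have h3 : cnt (ext x) n i = cnt (ext x) n' i := by
          have := congrArg (fun p => (p.2 : ℕ)) h1
          simpa using this
        have := srv_next (X := ext x) (n := n) (n' := n') (by simpa using hlt) hi hi'
        omega
      · rw [lbl_inl hi, lbl_inr hex'] at heq
        exact absurd heq (by simp)
    · by_cases hex' : ∃ i : Fin B, Srv (ext x) n' i
      · obtain ⟨i', hi'⟩ := hex'
        rw [lbl_inr hex, lbl_inl hi'] at heq
        exact absurd heq (by simp)
      · rw [lbl_inr hex, lbl_inr hex'] at heq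
        exact hlt.ne (Sum.inr.inj heq)
  intro n n' h
  by_contra hne
  rcases lt_or_gt_of_ne hne with h1 | h1
  · exact key n n' h1 h
  · exact key n' n h1 h.symm

/-- the good words -/
def GG (B : ℕ) (F : Finset (Fin B)) (t : Fin B → ℕ) : Finset (Fin (6 * B) → Fin 3) :=
  Finset.univ.filter fun x => ∀ i ∈ F, (lf 6 (sh (ext x) i) (6 * B - 6 * i)).1 = 0 ∧
    cnt (ext x) (6 * B) i = t i

open Classical in
/-- allowed values of the letter with a given label -/
def SS (B : ℕ) (F : Finset (Fin B)) (t : Fin B → ℕ) :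
    (Fin B × Fin (6 * B)) ⊕ Fin (6 * B) → Finset (Fin 3)
  | Sum.inl (i, j) => if i ∈ F then
      (if (j : ℕ) < t i then {1, 2} else if (j : ℕ) = t i then {0} else Finset.univ)
      else Finset.univ
  | Sum.inr _ => Finset.univ

theorem D_mem {B : ℕ} {F : Finset (Fin B)} {t : Fin B → ℕ}
    {x : Fin (6 * B) → Fin 3} (hx : x ∈ GG B F t)
    {D : (Fin B × Fin (6 * B)) ⊕ Fin (6 * B) → Fin 3} (hD : ∀ n, D (lbl B n x) = x n) :
    ∀ e, D e ∈ SS B F t e := by
  classical
  rintro (⟨i, j⟩ | n)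
  · simp only [SS]
    split_ifs with h1 h2 h3
    · -- failure
      have hx' := (Finset.mem_filter.1 hx).2 i h1
      have hi6 : 6 * (i : ℕ) < 6 * B := by have := i.2; omega
      have ht : (j : ℕ) < (lf 6 (sh (ext x) i) (6 * B - 6 * i)).2 := by
        have := hx'.2; unfold cnt at this; omega
      obtain ⟨m, hm, hm1, hm2, hm3⟩ := (serv (sh (ext x) i) (6 * B - 6 * i)).1 j ht
      have hn : 6 * (i : ℕ) + m < 6 * B := by omega
      have hs : Srv (ext x) (⟨6 * i + m, hn⟩ : Fin (6 * B)) i := by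
        refine ⟨by simp, ?_⟩
        simpa using hm1
      have h4 := hD ⟨6 * i + m, hn⟩
      rw [lbl_inl hs] at h4
      have h5 : (⟨cnt (ext x) (⟨6 * i + m, hn⟩ : Fin (6 * B)) i,
          lt_of_le_of_lt (cnt_le _ _ _) (⟨6 * i + m, hn⟩ : Fin (6 * B)).2⟩ : Fin (6 * B)) = j := by
        apply Fin.ext
        simp only [cnt]
        rw [← hm2]
        congr 2
        omega
      rw [h5] at h4
      rw [h4]
      have h6 : x ⟨6 * i + m, hn⟩ ≠ 0 := by
        have : sh (ext x) i m = x ⟨6 * i + m, hn⟩ := by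
          unfold sh ext
          rw [dif_pos hn]
        rw [← this]; exact hm3
      revert h6
      generalize x ⟨6 * i + m, hn⟩ = w
      revert w; decide
    · have hx' := (Finset.mem_filter.1 hx).2 i h1
      have hi6 : 6 * (i : ℕ) < 6 * B := by have := i.2; omega
      obtain ⟨m, hm, hm1, hm2, hm3⟩ := (serv (sh (ext x) i) (6 * B - 6 * i)).2 hx'.1
      have hn : 6 * (i : ℕ) + m < 6 * B := by omega
      have hs : Srv (ext x) (⟨6 * i + m, hn⟩ : Fin (6 * B)) i := by
        refine ⟨by simp, ?_⟩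
        simpa using hm1
      have h4 := hD ⟨6 * i + m, hn⟩
      rw [lbl_inl hs] at h4
      have h5 : (⟨cnt (ext x) (⟨6 * i + m, hn⟩ : Fin (6 * B)) i,
          lt_of_le_of_lt (cnt_le _ _ _) (⟨6 * i + m, hn⟩ : Fin (6 * B)).2⟩ : Fin (6 * B)) = j := by
        apply Fin.ext
        have h7 := hx'.2
        unfold cnt at h7 
        simp only [cnt]
        rw [h3, ← h7, ← hm2]
        congr 2
        omega
      rw [h5] at h4
      rw [h4]
      have : sh (ext x) i m = x ⟨6 * i + m, hn⟩ := by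
        unfold sh ext
        rw [dif_pos hn]
      rw [← this, hm3]
      simp
    · simp
    · simp
  · simp [SS]

theorem card_SS (B : ℕ) (F : Finset (Fin B)) (t : Fin B → ℕ) (ht : ∀ i ∈ F, t i < 6 * B) :
    ∏ e, ((SS B F t e).card : ℝ) =
      3 ^ Fintype.card ((Fin B × Fin (6 * B)) ⊕ Fin (6 * B)) * ∏ i ∈ F, lam (t i) := by
  classical
  have h3 : (3 : ℝ) ^ Fintype.card ((Fin B × Fin (6 * B)) ⊕ Fin (6 * B)) =
      ∏ _e : (Fin B × Fin (6 * B)) ⊕ Fin (6 * B), (3 : ℝ) := by simp
  have key : ∏ e, ((SS B F t e).card : ℝ) / 3 = ∏ i ∈ F, lam (t i) := by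
    rw [Fintype.prod_sum_type, Fintype.prod_prod_type]
    have h1 : ∏ n : Fin (6 * B), ((SS B F t (Sum.inr n)).card : ℝ) / 3 = 1 := by
      apply Finset.prod_eq_one
      intro n _
      simp [SS]
    rw [h1, mul_one]
    have h2 : ∀ i : Fin B, ∏ j : Fin (6 * B), ((SS B F t (Sum.inl (i, j))).card : ℝ) / 3 =
        if i ∈ F then lam (t i) else 1 := by
      intro i
      by_cases hi : i ∈ F
      · rw [if_pos hi]
        have h4 : ∀ j : Fin (6 * B), ((SS B F t (Sum.inl (i, j))).card : ℝ) / 3 =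
            (fun k : ℕ => if k < t i then (2 / 3 : ℝ) else if k = t i then 1 / 3 else 1) j := by
          intro j
          simp only [SS, if_pos hi]
          split_ifs with h5 h6
          · simp
          · simp
          · simp
        rw [Finset.prod_congr rfl fun j _ => h4 j,
          Fin.prod_univ_eq_prod_range (fun k : ℕ =>
            if k < t i then (2 / 3 : ℝ) else if k = t i then 1 / 3 else 1) (6 * B)]
        have h5 : 6 * B = (t i + 1) + (6 * B - (t i + 1)) := by have := ht i hi; omega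
        rw [h5, Finset.prod_range_add, Finset.prod_range_succ]
        have h6 : ∏ k ∈ Finset.range (t i),
            (if k < t i then (2 / 3 : ℝ) else if k = t i then 1 / 3 else 1) = (2 / 3) ^ t i := by
          rw [Finset.prod_congr rfl (g := fun _ => (2 / 3 : ℝ))]
          · rw [Finset.prod_const, Finset.card_range]
          · intro k hk
            rw [if_pos (Finset.mem_range.1 hk)]
        have h7 : ∏ k ∈ Finset.range (6 * B - (t i + 1)),
            (if t i + 1 + k < t i then (2 / 3 : ℝ) else if t i + 1 + k = t i then 1 / 3 else 1)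
              = 1 := by
          apply Finset.prod_eq_one
          intro k _
          rw [if_neg (by omega), if_neg (by omega)]
        rw [h6, h7, if_neg (lt_irrefl _), if_pos rfl]
        unfold lam
        rw [mul_one, mul_comm]
      · rw [if_neg hi]
        apply Finset.prod_eq_one
        intro j _
        simp [SS, hi]
    rw [Finset.prod_congr rfl fun i _ => h2 i, Finset.prod_ite_mem, Finset.univ_inter]
  rw [← key, h3, ← Finset.prod_mul_distrib]
  refine Finset.prod_congr rfl fun e _ => ?_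
  ring

theorem card_GG (hW : S_WORD) (B : ℕ) (F : Finset (Fin B)) (t : Fin B → ℕ) :
    ((GG B F t).card : ℝ) ≤ 3 ^ (6 * B) * ∏ i ∈ F, lam (t i) := by
  classical
  have hlam : ∀ k, 0 ≤ lam k := fun k => by unfold lam; positivity
  by_cases hne : (GG B F t).Nonempty
  swap
  · rw [Finset.not_nonempty_iff_eq_empty.1 hne]
    simp only [Finset.card_empty, Nat.cast_zero]
    exact mul_nonneg (by positivity) (Finset.prod_nonneg fun i _ => hlam _)
  have ht : ∀ i ∈ F, t i < 6 * B := by
    intro i hi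
    obtain ⟨x, hx⟩ := hne
    have hx' := (Finset.mem_filter.1 hx).2 i hi
    obtain ⟨m, hm, hm1, hm2, hm3⟩ := (serv (sh (ext x) i) (6 * B - 6 * i)).2 hx'.1
    have h7 := hx'.2
    unfold cnt at h7
    rw [← hm2] at h7
    have := lf2_le (sh (ext x) i) m
    omega
  have h1 := hW ((Fin B × Fin (6 * B)) ⊕ Fin (6 * B)) (6 * B) (lbl B) (GG B F t)
    (lbl_pred B) (lbl_inj B)
  have h2 : (Finset.univ.filter fun D : (Fin B × Fin (6 * B)) ⊕ Fin (6 * B) → Fin 3 =>
      ∃ x ∈ GG B F t, ∀ n, D (lbl B n x) = x n) ⊆ Fintype.piFinset (SS B F t) := by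
    intro D hD
    obtain ⟨x, hx, hDx⟩ := (Finset.mem_filter.1 hD).2
    rw [Fintype.mem_piFinset]
    exact D_mem hx hDx
  have h3 := Finset.card_le_card h2
  rw [Fintype.card_piFinset] at h3
  have h4 : ((GG B F t).card : ℝ) * 3 ^ Fintype.card ((Fin B × Fin (6 * B)) ⊕ Fin (6 * B)) ≤
      (3 ^ Fintype.card ((Fin B × Fin (6 * B)) ⊕ Fin (6 * B)) * ∏ i ∈ F, lam (t i)) *
        3 ^ (6 * B) := by
    rw [← card_SS B F t ht]
    have h5 : ((GG B F t).card : ℝ) * 3 ^ Fintype.card ((Fin B × Fin (6 * B)) ⊕ Fin (6 * B)) =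
        ((Finset.univ.filter fun D : (Fin B × Fin (6 * B)) ⊕ Fin (6 * B) → Fin 3 =>
      ∃ x ∈ GG B F t, ∀ n, D (lbl B n x) = x n).card : ℝ) * 3 ^ (6 * B) := by
      exact_mod_cast h1.symm
    rw [h5]
    apply mul_le_mul_of_nonneg_right _ (by positivity)
    exact_mod_cast h3
  have h5 : (0 : ℝ) < 3 ^ Fintype.card ((Fin B × Fin (6 * B)) ⊕ Fin (6 * B)) := by positivity
  nlinarith

end Pool.Agent.Helper5.Isg
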